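import Pool.Agent.MP_fafee5_lc.H72.Wreath

namespace Pool.Agent.Results.MP_fafee5_lc.Q1Perfect

open Pool.Agent.MP_fafee5_lc.H68 Pool.Agent.MP_fafee5_lc.H72

/-- Q1, positive answer with a non-degenerate witness: on every countably infinite set there is a
closed transformation monoid without isolated points, whose group of units has finitely many
orbits on the set, with automatic continuity but without automatic homeomorphicity. -/
theorem result (Ω : Type) [Countable Ω] [Infinite Ω] :
    ∃ S : Submonoid (Function.End Ω), InM S ∧ (∀ s : S, ¬ @IsOpen S (sub S) {s}) ∧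
      Finite (MulAction.orbitRel.Quotient Sˣ Ω) ∧ AutoCont S ∧ ¬ AutoHomeo S := by
  obtain ⟨e⟩ : Nonempty (Ω ≃ ℕ × J) := nonempty_equiv_of_countable
  exact ⟨S1 e, inM_img e _ _ fibClosed1, perfect_S1 e, finite_orbits e, autoCont_S1 e,
    not_autoHomeo_S1 e⟩

end Pool.Agent.Results.MP_fafee5_lc.Q1Perfect
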