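import Pool.Agent.MP_fafee5_lc.H68.Minimal

namespace Pool.Agent.Results.MP_fafee5_lc.Q2Oligomorphic

open Pool.Agent.MP_fafee5_lc.H68

/-- Q2, negative answer: an oligomorphic closed transformation monoid with automatic continuity
has automatic homeomorphicity. -/
theorem result (Ω : Type) [Countable Ω] [Infinite Ω] :
    ∀ S : Submonoid (Function.End Ω), InM S → Oligomorphic S → AutoCont S → AutoHomeo S :=
  fun _ hS hO hC => autoHomeo_of_autoCont hS hO hC

end Pool.Agent.Results.MP_fafee5_lc.Q2Oligomorphic
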